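import Pool.Agent.H590.NL.Stm

/-!
# GS: the gaussian identity (MP_85210c_gt in all dimensions, helper590)
-/

set_option autoImplicit false
set_option linter.unusedSectionVars false

noncomputable section

open MeasureTheory Filter Topology Set
open scoped BigOperators ENNReal
open H590NL

namespace H178NL

variable {m : ℕ} {κ : Type} [Fintype κ]

/-- the part of `uu` which depends on `x` -/
def W (v : κ → V (m + 1)) (x : V m) (j : κ) : ℝ := ∑ i : Fin m, v j i.succ * x i

theorem uu_eq (v : κ → V (m + 1)) (s : ℝ) (x : V m) (j : κ) : uu v s x j = v j 0 * s + W v x j := by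
  unfold uu ip W
  rw [Fin.sum_univ_succ]
  simp only [Fin.cons_zero, Fin.cons_succ]

theorem W_add (v : κ → V (m + 1)) (x y : V m) (j : κ) : W v (x + y) j = W v x j + W v y j := by
  unfold W
  rw [← Finset.sum_add_distrib]
  refine Finset.sum_congr rfl fun i _ => ?_
  rw [Pi.add_apply]
  ring

theorem W_smul (v : κ → V (m + 1)) (c : ℝ) (x : V m) (j : κ) : W v (c • x) j = c * W v x j := by
  unfold W
  rw [Finset.mul_sum]
  refine Finset.sum_congr rfl fun i _ => ?_
  rw [Pi.smul_apply, smul_eq_mul]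
  ring

theorem W_neg (v : κ → V (m + 1)) (x : V m) (j : κ) : W v (-x) j = -W v x j := by
  unfold W
  rw [← Finset.sum_neg_distrib]
  refine Finset.sum_congr rfl fun i _ => ?_
  rw [Pi.neg_apply]
  ring

theorem cont_W (v : κ → V (m + 1)) (j : κ) : Continuous fun x : V m => W v x j := by
  unfold W
  fun_prop

theorem cont_uu (v : κ → V (m + 1)) (s : ℝ) (j : κ) : Continuous fun x : V m => uu v s x j := by
  simp only [uu_eq]
  exact continuous_const.add (cont_W v j)

/-- coercivity -/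
theorem coer (h : S_LA) (v : κ → V (m + 1)) (hv : Spans v) (a : κ → ℝ) (ha : ∀ j, 0 < a j) :
    ∃ c : ℝ, 0 < c ∧ ∀ (s : ℝ) (x : V m), c * ∑ i, x i ^ 2 ≤ ∑ j, a j * uu v s x j ^ 2 := by
  obtain ⟨c, hc, hcx⟩ := (h (m + 1) κ v).2 hv
  obtain ⟨α, hα, hαa⟩ : ∃ α : ℝ, 0 < α ∧ ∀ j, α ≤ a j := by
    rcases isEmpty_or_nonempty κ with he | he
    · exact ⟨1, one_pos, fun j => (he.false j).elim⟩
    · obtain ⟨j0, hj0⟩ := Finite.exists_min a
      exact ⟨a j0, ha j0, hj0⟩
  refine ⟨α * c, mul_pos hα hc, fun s x => ?_⟩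
  have h1 := hcx (Fin.cons s x : Fin (m + 1) → ℝ)
  rw [Fin.sum_univ_succ] at h1
  simp only [Fin.cons_zero, Fin.cons_succ] at h1
  have h2 : c * ∑ i, x i ^ 2 ≤ ∑ j, uu v s x j ^ 2 := by
    refine le_trans ?_ h1
    have := mul_nonneg hc.le (sq_nonneg s)
    linarith
  calc α * c * ∑ i, x i ^ 2 = α * (c * ∑ i, x i ^ 2) := by ring
    _ ≤ α * ∑ j, uu v s x j ^ 2 := mul_le_mul_of_nonneg_left h2 hα.le
    _ = ∑ j, α * uu v s x j ^ 2 := by rw [Finset.mul_sum]
    _ ≤ ∑ j, a j * uu v s x j ^ 2 := Finset.sum_le_sum fun j _ =>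
        mul_le_mul_of_nonneg_right (hαa j) (sq_nonneg _)

/-- gaussians are integrable -/
theorem int_gauss {c : ℝ} (hc : 0 < c) :
    Integrable (fun x : V m => Real.exp (-(c * ∑ i, x i ^ 2))) := by
  have h1 : Integrable (fun x : V m => ∏ i : Fin m, Real.exp (-c * x i ^ 2)) :=
    Integrable.fintype_prod (fun i => integrable_exp_neg_mul_sq hc)
  refine h1.congr (Eventually.of_forall fun x => ?_)
  simp only
  rw [← Real.exp_sum]
  congr 1
  rw [Finset.mul_sum, ← Finset.sum_neg_distrib]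
  refine Finset.sum_congr rfl fun i _ => ?_
  ring

/-- affine functions times a gaussian -/
theorem int_aff {c : ℝ} (hc : 0 < c) (Q L : V m → ℝ) (hQ : Continuous Q) (hL : Continuous L)
    (hQc : ∀ x, c * ∑ i, x i ^ 2 ≤ Q x) (A : ℝ) (hA : 0 ≤ A)
    (hLA : ∀ x, |L x| ≤ A * (1 + ∑ i, x i ^ 2)) :
    Integrable (fun x : V m => Real.exp (-(Q x)) * L x) := by
  have hc2 : 0 < c / 2 := by linarith
  refine ((int_gauss (m := m) hc2).const_mul (A * (1 + 2 / c))).mono' ?_
    (Eventually.of_forall fun x => ?_)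
  · exact ((Real.continuous_exp.comp hQ.neg).mul hL).aestronglyMeasurable
  · rw [norm_mul, Real.norm_eq_abs, Real.abs_exp, Real.norm_eq_abs]
    have hy : 0 ≤ ∑ i, x i ^ 2 := Finset.sum_nonneg fun i _ => sq_nonneg _
    set y : ℝ := ∑ i, x i ^ 2 with hydef
    have h1 : Real.exp (-(Q x)) ≤ Real.exp (-(c * y)) := Real.exp_le_exp.2 (neg_le_neg (hQc x))
    have h2 : 1 + y ≤ (1 + 2 / c) * Real.exp (c / 2 * y) := by
      have h3 := Real.add_one_le_exp (c / 2 * y)
      have h4 : 1 + y ≤ (1 + 2 / c) * (c / 2 * y + 1) := by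
        have e : (1 + 2 / c) * (c / 2 * y + 1) = 1 + y + (c / 2 * y + 2 / c) := by
          field_simp
          ring
        rw [e]
        have : 0 ≤ c / 2 * y + 2 / c := by positivity
        linarith
      refine h4.trans (mul_le_mul_of_nonneg_left h3 (by positivity))
    calc Real.exp (-(Q x)) * |L x| ≤ Real.exp (-(c * y)) * (A * (1 + y)) :=
          mul_le_mul h1 (hLA x) (abs_nonneg _) (Real.exp_pos _).le
      _ ≤ Real.exp (-(c * y)) * (A * ((1 + 2 / c) * Real.exp (c / 2 * y))) :=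
          mul_le_mul_of_nonneg_left (mul_le_mul_of_nonneg_left h2 hA) (Real.exp_pos _).le
      _ = A * (1 + 2 / c) * (Real.exp (-(c * y)) * Real.exp (c / 2 * y)) := by ring
      _ = A * (1 + 2 / c) * Real.exp (-(c / 2 * y)) := by
          rw [← Real.exp_add]
          congr 2
          ring

theorem abs_le_sq (t : ℝ) : |t| ≤ 1 + t ^ 2 := by
  have h : |t| ^ 2 = t ^ 2 := sq_abs t
  nlinarith [sq_nonneg (|t| - 1), abs_nonneg t]

theorem W_bound (v : κ → V (m + 1)) (x : V m) (j : κ) :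
    |W v x j| ≤ (∑ i : Fin m, |v j i.succ|) * (1 + ∑ i, x i ^ 2) := by
  unfold W
  refine (Finset.abs_sum_le_sum_abs _ _).trans ?_
  rw [Finset.sum_mul]
  refine Finset.sum_le_sum fun i _ => ?_
  rw [abs_mul]
  refine mul_le_mul_of_nonneg_left ((abs_le_sq _).trans ?_) (abs_nonneg _)
  have := Finset.single_le_sum (f := fun i : Fin m => x i ^ 2) (fun i _ => sq_nonneg _)
    (Finset.mem_univ i)
  linarith

/-- the linear part of the normal equations -/
def T (v : κ → V (m + 1)) (a : κ → ℝ) : V m →ₗ[ℝ] V m where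
  toFun x i := ∑ j, a j * W v x j * v j i.succ
  map_add' x y := by
    funext i
    rw [Pi.add_apply, ← Finset.sum_add_distrib]
    refine Finset.sum_congr rfl fun j _ => ?_
    rw [W_add]
    ring
  map_smul' c x := by
    funext i
    rw [Pi.smul_apply, smul_eq_mul, RingHom.id_apply, Finset.mul_sum]
    refine Finset.sum_congr rfl fun j _ => ?_
    rw [W_smul]
    ring

/-- minimiser -/
theorem minim (h : S_LA) (v : κ → V (m + 1)) (hv : Spans v) (a : κ → ℝ) (ha : ∀ j, 0 < a j) :
    ∃ η : V m, ∀ z : V m, ∑ j, a j * (v j 0 + W v η j) * W v z j = 0 := by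
  obtain ⟨c, hc, hcx⟩ := coer h v hv a ha
  have hker : LinearMap.ker (T v a) = ⊥ := by
    rw [LinearMap.ker_eq_bot']
    intro x hx
    have h1 : ∑ j, a j * uu v 0 x j ^ 2 = 0 := by
      have h2 : ∑ i, x i * T v a x i = 0 := by
        rw [hx]
        simp
      refine Eq.trans ?_ h2
      unfold T
      simp only [LinearMap.coe_mk, AddHom.coe_mk, Finset.mul_sum]
      rw [Finset.sum_comm]
      refine Finset.sum_congr rfl fun j _ => ?_
      rw [uu_eq, mul_zero, zero_add]
      have h3 : W v x j ^ 2 = ∑ i : Fin m, x i * (W v x j * v j i.succ) := by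
        rw [sq]
        nth_rewrite 2 [W]
        rw [Finset.mul_sum]
        refine Finset.sum_congr rfl fun i _ => ?_
        ring
      rw [h3, Finset.mul_sum]
      refine Finset.sum_congr rfl fun i _ => ?_
      ring
    have h4 := hcx 0 x
    rw [h1] at h4
    have h5 : ∑ i, x i ^ 2 = 0 := by
      have h6 : 0 ≤ ∑ i, x i ^ 2 := Finset.sum_nonneg fun i _ => sq_nonneg _
      by_contra hne
      have h7 : 0 < ∑ i, x i ^ 2 := lt_of_le_of_ne h6 (Ne.symm hne)
      have := mul_pos hc h7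
      linarith
    rw [Finset.sum_eq_zero_iff_of_nonneg fun i _ => sq_nonneg _] at h5
    funext i
    exact pow_eq_zero_iff (two_ne_zero) |>.1 (h5 i (Finset.mem_univ i))
  have hsurj : Function.Surjective (T v a) :=
    LinearMap.injective_iff_surjective.1 (LinearMap.ker_eq_bot.1 hker)
  obtain ⟨η, hη⟩ := hsurj (fun i => -∑ j, a j * v j 0 * v j i.succ)
  refine ⟨η, fun z => ?_⟩
  have h1 : ∀ i : Fin m, ∑ j, a j * (v j 0 + W v η j) * v j i.succ = 0 := by
    intro i
    have h2 := congrFun hη i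
    unfold T at h2
    simp only [LinearMap.coe_mk, AddHom.coe_mk] at h2
    have h3 : ∑ j, a j * (v j 0 + W v η j) * v j i.succ =
        ∑ j, a j * v j 0 * v j i.succ + ∑ j, a j * W v η j * v j i.succ := by
      rw [← Finset.sum_add_distrib]
      refine Finset.sum_congr rfl fun j _ => ?_
      ring
    rw [h3, h2]
    ring
  have h4 : ∑ j, a j * (v j 0 + W v η j) * W v z j =
      ∑ i : Fin m, z i * ∑ j, a j * (v j 0 + W v η j) * v j i.succ := by
    simp only [Finset.mul_sum]
    rw [Finset.sum_comm]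
    refine Finset.sum_congr rfl fun j _ => ?_
    have hW : W v z j = ∑ i : Fin m, v j i.succ * z i := rfl
    rw [hW, Finset.mul_sum]
    refine Finset.sum_congr rfl fun i _ => ?_
    ring
  rw [h4]
  refine Finset.sum_eq_zero fun i _ => ?_
  rw [h1 i, mul_zero]

/-- expansion around the minimiser -/
theorem expand (v : κ → V (m + 1)) (a : κ → ℝ) {η : V m}
    (hη : ∀ z : V m, ∑ j, a j * (v j 0 + W v η j) * W v z j = 0) (s : ℝ) (z : V m) :
    ∑ j, a j * uu v s (z + s • η) j ^ 2 =
      ∑ j, a j * W v z j ^ 2 + s ^ 2 * ∑ j, a j * uu v 1 η j ^ 2 := by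
  have h1 : ∀ j, a j * uu v s (z + s • η) j ^ 2 = a j * W v z j ^ 2 +
      s ^ 2 * (a j * uu v 1 η j ^ 2) + 2 * s * (a j * (v j 0 + W v η j) * W v z j) := by
    intro j
    rw [uu_eq, uu_eq, W_add, W_smul]
    ring
  simp only [h1, Finset.sum_add_distrib, ← Finset.mul_sum]
  rw [hη z]
  ring

theorem expand1 (v : κ → V (m + 1)) (a : κ → ℝ) {η : V m}
    (hη : ∀ z : V m, ∑ j, a j * (v j 0 + W v η j) * W v z j = 0) (s : ℝ) (z : V m) :
    ∑ j, a j * v j 0 * uu v s (z + s • η) j =
      ∑ j, a j * v j 0 * W v z j + s * ∑ j, a j * uu v 1 η j ^ 2 := by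
  have h1 : ∀ j, a j * v j 0 * uu v s (z + s • η) j = a j * v j 0 * W v z j +
      s * (a j * uu v 1 η j ^ 2) - s * (a j * (v j 0 + W v η j) * W v η j) := by
    intro j
    rw [uu_eq, uu_eq, W_add, W_smul]
    ring
  simp only [h1, Finset.sum_add_distrib, Finset.sum_sub_distrib, ← Finset.mul_sum]
  rw [hη η]
  ring

/-- the infimum over the rational points is the minimum -/
theorem JJ_eq (v : κ → V (m + 1)) (a : κ → ℝ) (ha : ∀ j, 0 < a j) {η : V m}
    (hη : ∀ z : V m, ∑ j, a j * (v j 0 + W v η j) * W v z j = 0) :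
    JJ v a = ∑ j, a j * uu v 1 η j ^ 2 := by
  have hlow : ∀ ξ : V m, ∑ j, a j * uu v 1 η j ^ 2 ≤ ∑ j, a j * uu v 1 ξ j ^ 2 := by
    intro ξ
    have h1 := expand v a hη 1 (ξ - η)
    rw [one_smul, sub_add_cancel] at h1
    rw [h1]
    have h2 : 0 ≤ ∑ j, a j * W v (ξ - η) j ^ 2 :=
      Finset.sum_nonneg fun j _ => mul_nonneg (ha j).le (sq_nonneg _)
    linarith
  have hbdd : BddBelow (Set.range fun ξ : Fin m → ℚ =>
      ∑ j, a j * uu v 1 (fun i => (ξ i : ℝ)) j ^ 2) :=
    ⟨∑ j, a j * uu v 1 η j ^ 2, by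
      rintro _ ⟨ξ, rfl⟩
      exact hlow _⟩
  unfold JJ
  refine le_antisymm ?_ (le_ciInf fun ξ => hlow _)
  refine le_of_forall_pos_le_add fun ε hε => ?_
  have hcont : Continuous fun ξ : V m => ∑ j, a j * uu v 1 ξ j ^ 2 :=
    continuous_finsetSum _ fun j _ => continuous_const.mul ((cont_uu v 1 j).pow 2)
  obtain ⟨δ, hδ, hδ'⟩ := Metric.continuousAt_iff.1 (hcont.continuousAt (x := η)) ε hε
  have hr : ∀ i : Fin m, ∃ q : ℚ, |η i - q| < δ := fun i => exists_rat_near (η i) hδ
  choose q hq using hr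
  have h1 : dist (fun i => ((q i : ℚ) : ℝ)) η < δ := by
    rw [dist_pi_lt_iff hδ]
    intro i
    rw [Real.dist_eq, abs_sub_comm]
    exact hq i
  have h2 := hδ' h1
  rw [Real.dist_eq] at h2
  have h3 := (abs_lt.1 h2).2
  refine (ciInf_le hbdd q).trans ?_
  linarith

/-- GS: the gaussian identity -/
theorem GS (h : S_LA) : S_GS := by
  intro m κ _ v hv a s ha
  obtain ⟨c, hc, hcx⟩ := coer h v hv a ha
  obtain ⟨η, hη⟩ := minim h v hv a ha
  have hJ := JJ_eq v a ha hη
  -- continuity
  have hQ : ∀ s, Continuous fun x : V m => ∑ j, a j * uu v s x j ^ 2 := fun s =>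
    continuous_finsetSum _ fun j _ => continuous_const.mul ((cont_uu v s j).pow 2)
  have hL : Continuous fun x : V m => ∑ j, a j * v j 0 * uu v s x j :=
    continuous_finsetSum _ fun j _ => continuous_const.mul (cont_uu v s j)
  have hy : ∀ x : V m, 0 ≤ ∑ i, x i ^ 2 := fun x => Finset.sum_nonneg fun i _ => sq_nonneg _
  have i1 : Integrable (fun x : V m => Real.exp (-(∑ j, a j * uu v s x j ^ 2))) := by
    have h1 := int_aff hc (fun x : V m => ∑ j, a j * uu v s x j ^ 2) (fun _ => 1) (hQ s)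
      continuous_const (hcx s) 1 zero_le_one (fun x => by
        rw [abs_one, one_mul]
        have := hy x
        linarith)
    simpa using h1
  have i2 : Integrable (fun x : V m => Real.exp (-(∑ j, a j * uu v s x j ^ 2)) *
      ∑ j, a j * v j 0 * uu v s x j) := by
    refine int_aff hc (fun x : V m => ∑ j, a j * uu v s x j ^ 2) _ (hQ s) hL (hcx s)
      (∑ j, |a j * v j 0| * (|v j 0 * s| + ∑ i : Fin m, |v j i.succ|))
      (Finset.sum_nonneg fun j _ => by positivity) (fun x => ?_)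
    refine (Finset.abs_sum_le_sum_abs _ _).trans ?_
    rw [Finset.sum_mul]
    refine Finset.sum_le_sum fun j _ => ?_
    rw [abs_mul, mul_assoc]
    refine mul_le_mul_of_nonneg_left ?_ (abs_nonneg _)
    rw [uu_eq]
    refine (abs_add_le _ _).trans ?_
    rw [add_mul]
    refine add_le_add ?_ (W_bound v x j)
    have h1 : 0 ≤ |v j 0 * s| * ∑ i, x i ^ 2 := mul_nonneg (abs_nonneg _) (hy x)
    linarith
  refine ⟨i1, i2, ?_⟩
  -- the odd part
  have hodd : ∫ z : V m, Real.exp (-(∑ j, a j * W v z j ^ 2)) * ∑ j, a j * v j 0 * W v z j = 0 := by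
    have h1 := integral_neg_eq_self (fun z : V m => Real.exp (-(∑ j, a j * W v z j ^ 2)) *
      ∑ j, a j * v j 0 * W v z j) volume
    have h2 : ∀ z : V m, Real.exp (-(∑ j, a j * W v (-z) j ^ 2)) *
        ∑ j, a j * v j 0 * W v (-z) j = -(Real.exp (-(∑ j, a j * W v z j ^ 2)) *
        ∑ j, a j * v j 0 * W v z j) := by
      intro z
      simp only [W_neg, neg_sq, mul_neg, Finset.sum_neg_distrib]
    simp only [h2] at h1
    rw [integral_neg] at h1
    linarith
  have k1 : Integrable (fun z : V m => Real.exp (-(∑ j, a j * W v z j ^ 2))) := by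
    have h1 := int_aff hc (fun x : V m => ∑ j, a j * uu v 0 x j ^ 2) (fun _ => 1) (hQ 0)
      continuous_const (hcx 0) 1 zero_le_one (fun x => by
        rw [abs_one, one_mul]
        have := hy x
        linarith)
    simpa [uu_eq] using h1
  have k2 : Integrable (fun z : V m => Real.exp (-(∑ j, a j * W v z j ^ 2)) *
      ∑ j, a j * v j 0 * W v z j) := by
    have h1 := int_aff hc (fun x : V m => ∑ j, a j * uu v 0 x j ^ 2)
      (fun x => ∑ j, a j * v j 0 * W v x j) (hQ 0)
      (continuous_finsetSum _ fun j _ => continuous_const.mul (cont_W v j)) (hcx 0)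
      (∑ j, |a j * v j 0| * (∑ i : Fin m, |v j i.succ|))
      (Finset.sum_nonneg fun j _ => by positivity) (fun x => by
        refine (Finset.abs_sum_le_sum_abs _ _).trans ?_
        rw [Finset.sum_mul]
        refine Finset.sum_le_sum fun j _ => ?_
        rw [abs_mul, mul_assoc]
        exact mul_le_mul_of_nonneg_left (W_bound v x j) (abs_nonneg _))
    simpa [uu_eq] using h1
  -- translation
  have t1 : ∫ x : V m, Real.exp (-(∑ j, a j * uu v s x j ^ 2)) * ∑ j, a j * v j 0 * uu v s x j =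
      ∫ z : V m, Real.exp (-(∑ j, a j * uu v s (z + s • η) j ^ 2)) *
        ∑ j, a j * v j 0 * uu v s (z + s • η) j :=
    (integral_add_right_eq_self (fun x : V m => Real.exp (-(∑ j, a j * uu v s x j ^ 2)) *
      ∑ j, a j * v j 0 * uu v s x j) (s • η)).symm
  have t2 : ∫ x : V m, Real.exp (-(∑ j, a j * uu v s x j ^ 2)) =
      ∫ z : V m, Real.exp (-(∑ j, a j * uu v s (z + s • η) j ^ 2)) :=
    (integral_add_right_eq_self (fun x : V m => Real.exp (-(∑ j, a j * uu v s x j ^ 2)))
      (s • η)).symm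
  rw [t1, t2]
  simp only [expand v a hη, expand1 v a hη]
  rw [← hJ]
  have e1 : ∀ z : V m, Real.exp (-(∑ j, a j * W v z j ^ 2 + s ^ 2 * JJ v a)) =
      Real.exp (-(s ^ 2 * JJ v a)) * Real.exp (-(∑ j, a j * W v z j ^ 2)) := by
    intro z
    rw [← Real.exp_add]
    congr 1
    ring
  have e2 : ∀ z : V m, Real.exp (-(∑ j, a j * W v z j ^ 2 + s ^ 2 * JJ v a)) *
      (∑ j, a j * v j 0 * W v z j + s * JJ v a) =
      Real.exp (-(s ^ 2 * JJ v a)) * (Real.exp (-(∑ j, a j * W v z j ^ 2)) *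
        ∑ j, a j * v j 0 * W v z j) +
      s * JJ v a * Real.exp (-(s ^ 2 * JJ v a)) * Real.exp (-(∑ j, a j * W v z j ^ 2)) := by
    intro z
    rw [e1]
    ring
  simp only [e2]
  simp only [e1]
  rw [integral_add (k2.const_mul _) (k1.const_mul _), integral_const_mul, integral_const_mul,
    integral_const_mul, hodd]
  ring

end H178NL
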